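import Pool.Agent.H27.TOP.Stm
import Pool.Agent.H1.GEN.Fx

/-!
# The rows of a family with side information

`rz_of : RT n → RZ n`: if the rows of the last coordinate over the other coordinates are full in
the classes without stable labels, then they are full in every family with side information
without stable labels.
-/

set_option autoImplicit false

namespace Pool.TOP

open Finset Real MvPolynomial
open Pool.Agent.H49.Ent Pool.Agent.H32.Dense Pool.STK Pool.KA Pool.KSAT Pool.K2S Pool.PB Pool.S6C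
open Pool.GEN Pool.ONE Pool.ZCL

variable {n J : ℕ}

/-- **Lower bounds for rows in a family with side information.** -/
theorem zcl_row {ι : ℕ → ℕ → Type} [∀ i J, Fintype (ι i J)]
    {R : ∀ (i J : ℕ), ι i J → ∀ F : Fam n J, (F.Ω → Prop) → Prop}
    (Good : ∀ J : ℕ, Fam n J → Prop)
    (hcard : ∀ (i : ℕ) (e : ℝ), 0 < e → ∃ J₀ : ℕ, ∀ J ≥ J₀,
      (Fintype.card (ι i J) : ℝ) ≤ Real.exp (e * J))
    (hinv : ∀ (i J : ℕ) (a : ι i J), Inv0 (R i J a))
    (hgl : ∀ (i J : ℕ) (a : ι i J), GluP (R i J a))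
    (hsub : ∀ (i J : ℕ) (a : ι i J) (G : Fam n J) (E : G.Ω → Prop)
      (h : IsLaw (cond G.p E True)) (B : G.Ω → Prop), R i J a (G.res E True h) B →
      R i J a G (fun ω => E ω ∧ B ω))
    (hGd : ∀ (J : ℕ) (G : Fam n J), Good J G → Gd G)
    (hGood : ∀ (J : ℕ) (G : Fam n J), Good J G → ∀ (κ : Type) (k : G.Ω → κ) (v : κ)
      (h : IsLaw (cond G.p k v)), Good J (G.res k v h))
    (kk : Fin n) (I : Finset (Fin n)) (Q : ℕ → ℕ) {b : ℝ} (hb : 0 ≤ b)
    (hL : ∀ S : FCl n, (∀ (τ : ℝ) (J : ℕ) (F : Fam n J), S.T τ J F → Good J F ∧ Zc F) →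
      (∀ i : ℕ, ∃ κ : ℝ, 0 < κ ∧ Bas S.toP (fun J F A => ∀ B : F.Ω → Prop,
        Real.exp (-(κ * J)) * Pe F.p A ≤ Pe F.p B → ¬ ∃ a : ι i J, R i J a F B)) →
      Clg S (fun J F A => b * J ≤ rowH F A kk I (Q J) (fun _ => ()))) :
    ∀ ψ : ℕ → ℝ, (∀ i, 0 < ψ i) → ∀ ε : ℝ, 0 < ε →
    ∃ η : ℝ, 0 < η ∧ ∃ N J₁ : ℕ, ∀ J ≥ J₁, ∀ G : Fam n J, G.Tm (η * J) → Good J G →
    (∃ i ≤ N, ∃ B : G.Ω → Prop, Real.exp (-(3 * ψ i * J)) ≤ Pe G.p B ∧
      ∃ a : ι i J, R i J a G B) ∨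
    (b - ε) * J ≤ rowH G (fun _ => True) kk I (Q J) (fun _ => ()) := by
  classical
  intro ψ hψ ε hε
  obtain ⟨Bad, hBd⟩ : ∃ Bad : ℕ → Stat n, Bad = fun i J F B => ∃ a : ι i J, R i J a F B :=
    ⟨_, rfl⟩
  have hBd' : ∀ (i J : ℕ) (F : Fam n J) (B : F.Ω → Prop),
      Bad i J F B ↔ ∃ a : ι i J, R i J a F B := fun i J F B => by rw [hBd]
  have hΦ := hL (zc n (fun J F => Good J F ∧ Zc F) Bad ψ) (fun τ J F h => h.2.2.2.1) fun i =>
    ⟨ψ i / 2, half_pos (hψ i), Bas.mono 0 (zc_bas hψ i) fun J _ F A h B hPB => by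
      have h1 := h B hPB
      rwa [hBd'] at h1⟩
  have hB₀ : (0 : ℝ) < 4 * n + 1 := by positivity
  obtain ⟨η₀, hη₀, N, J₁, hcore⟩ := zcl_core (Good := fun J F => Good J F ∧ Zc F)
    (Bad := Bad) hψ
    (fun i J F A h => by
      rw [hBd'] at h ⊢
      obtain ⟨a, ha⟩ := h
      exact ⟨a, hinv i J a F A ha⟩) hΦ hB₀ one_pos
  -- the proportion of the exhausted part
  obtain ⟨δ, hδ⟩ : ∃ δ, δ = min (1 / 2) (ε / (b + 1)) := ⟨_, rfl⟩
  have hb1 : 0 < b + 1 := by linarith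
  have hδ0 : 0 < δ := by
    rw [hδ]
    exact lt_min (by norm_num) (div_pos hε hb1)
  have hδb : δ * b ≤ ε := by
    have h1 : δ ≤ ε / (b + 1) := by
      rw [hδ]
      exact min_le_right _ _
    have h2 : δ * (b + 1) ≤ ε := by rwa [le_div_iff₀ hb1] at h1
    linarith
  have key : ∀ i, ∃ J₀ : ℕ, ∀ J ≥ J₀,
      (Fintype.card (ι i J) : ℝ) ≤ δ * Real.exp (ψ i * J) := by
    intro i
    obtain ⟨J₃, h3⟩ := hcard i (ψ i / 2) (half_pos (hψ i))
    obtain ⟨J₄, h4⟩ := exists_nat_ge (2 * |Real.log δ| / ψ i)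
    refine ⟨max J₃ J₄, fun J hJ => (h3 J ((le_max_left _ _).trans hJ)).trans ?_⟩
    have hJ4 : (J₄ : ℝ) ≤ J := by exact_mod_cast (le_max_right _ _).trans hJ
    have h5 : 2 * |Real.log δ| / ψ i ≤ J := h4.trans hJ4
    rw [div_le_iff₀ (hψ i)] at h5
    have h6 : -Real.log δ ≤ |Real.log δ| := neg_le_abs _
    have e1 : δ = Real.exp (Real.log δ) := (Real.exp_log hδ0).symm
    rw [e1, ← Real.exp_add]
    refine Real.exp_le_exp.2 ?_
    linarith
  choose J₂ hJ₂ using key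
  obtain ⟨J₅, hJ₅⟩ := exists_nat_ge (2 * Real.log 2 / (δ * η₀))
  refine ⟨δ * η₀ / 2, by positivity, N, max (max J₁ 1) (max (∑ i ∈ range (N + 1), J₂ i) J₅),
    fun J hJ G hTm hGd' => ?_⟩
  have hJ1 : J₁ ≤ J := (le_max_left _ _).trans ((le_max_left _ _).trans hJ)
  have hJ0 : 1 ≤ J := (le_max_right _ _).trans ((le_max_left _ _).trans hJ)
  have hJ2 : ∑ i ∈ range (N + 1), J₂ i ≤ J :=
    (le_max_left _ _).trans ((le_max_right _ _).trans hJ)
  have hJ5 : (J₅ : ℝ) ≤ J := by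
    exact_mod_cast (le_max_right _ _).trans ((le_max_right _ _).trans hJ)
  have hp := G.isLaw
  by_cases hcon : ∃ i ≤ N, ∃ B : G.Ω → Prop, Real.exp (-(3 * ψ i * J)) ≤ Pe G.p B ∧
      ∃ a : ι i J, R i J a G B
  · exact Or.inl hcon
  right
  have hJr : (0 : ℝ) ≤ J := Nat.cast_nonneg J
  have hP1 : Pe G.p (fun _ => True) = 1 := Pe_univ hp
  have hex := exh_ge hp (A := fun _ => True) (by rw [hP1]; exact one_pos)
    (fun ω => G.X J ω kk) (fun ω => (G.X (Q J) ω kk, (ub I (G.X J ω), ((), G.W ω))))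
    (δ := δ) (E := b * J) (mul_nonneg hb hJr) hδ0.le (by
    intro E _ hE0 hE
    rw [hP1, mul_one] at hE
    have hElaw := isLaw_cond hp hE0
    have hTm' : (G.res E True hElaw).Tm (η₀ * J) := by
      have h1 := Pool.OVN.res_Tm_of_event hTm hE0
      unfold Fam.Tm at h1 ⊢
      refine le_trans ?_ h1
      have h2 : (δ * η₀ / 2 * J + Real.log 2) / Pe G.p E ≤ η₀ * J := by
        rw [div_le_iff₀ hE0]
        have h3 : 2 * Real.log 2 / (δ * η₀) ≤ J := hJ₅.trans hJ5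
        rw [div_le_iff₀ (by positivity)] at h3
        have h4 : η₀ * J * δ ≤ η₀ * J * Pe G.p E :=
          mul_le_mul_of_nonneg_left hE (mul_nonneg hη₀.le hJr)
        linarith
      linarith
    obtain ⟨κ, k, B, hSel, hPB, hsec⟩ := hcore J hJ1 (G.res E True hElaw) hTm'
      (gd_lines (hGd J _ (hGood J G hGd' _ E True hElaw)) hJ0)
      (fun κ k v h hk => ⟨hGood J _ (hGood J G hGd' _ E True hElaw) κ k v h, by
        intro ω ω' hω hω'
        have e1 := (cond_pos_iff hElaw.nonneg k v ω).1 hω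
        have e2 := (cond_pos_iff hElaw.nonneg k v ω').1 hω'
        exact hk ω ω' (e1.2.trans e2.2.symm)⟩) (by
      intro i hi κ k B hSel hPB hbad
      have hB0 : 0 < Pe (G.res E True hElaw).p B := lt_of_lt_of_le (Real.exp_pos _) hPB
      obtain ⟨a, B', hB', hP, hsec⟩ := sec_pigeon (ι := ι i J) hElaw k B hB0
        (fun a v E' => ∀ hl : IsLaw (cond (G.res E True hElaw).p k v),
          R i J a ((G.res E True hElaw).res k v hl) E') (by
          intro ω hω hBω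
          have h1 := hbad ω hω hBω (isLaw_sec hElaw k hω)
          rw [hBd'] at h1
          obtain ⟨a, ha⟩ := h1
          exact ⟨a, fun hl => ha⟩)
      have hB0' : 0 < Pe (G.res E True hElaw).p B' := by
        by_contra h1
        push Not at h1
        have h2 : ((Fintype.card (ι i J) : ℕ) : ℝ) * Pe (G.res E True hElaw).p B' ≤ 0 :=
          mul_nonpos_of_nonneg_of_nonpos (Nat.cast_nonneg _) h1
        have h3 : Pe (G.res E True hElaw).p B ≤
          (Fintype.card (ι i J) : ℕ) * Pe (G.res E True hElaw).p B' := hP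
        linarith
      have hR := hgl i J a (G.res E True hElaw) κ k B' (hSel.sub hB') hB0'
        fun ω hω hBω hl => hsec ω hω hBω hl
      have hR' := hsub i J a G E hElaw _ hR
      refine hcon ⟨i, hi, _, ?_, a, hR'⟩
      have hJi : J₂ i ≤ J := (Finset.single_le_sum (f := J₂) (fun _ _ => Nat.zero_le _)
        (Finset.mem_range.2 (by omega))).trans hJ2
      have h3 := hJ₂ i J hJi
      have e1 : Pe G.p (fun ω => E ω ∧ B' ω ∧ (G.res E True hElaw).p ω ≠ 0) =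
          Pe (G.res E True hElaw).p B' * Pe G.p E := by
        have h5 : Pe (G.res E True hElaw).p B' = Pe G.p (fun ω => E ω ∧ B' ω) / Pe G.p E :=
          Pe_cond (p := G.p) (A := E) B'
        rw [h5, div_mul_cancel₀ _ hE0.ne']
        rw [← Pe_supp G.p (fun ω => E ω ∧ B' ω)]
        rw [← Pe_supp G.p (fun ω => E ω ∧ B' ω ∧ (G.res E True hElaw).p ω ≠ 0)]
        congr 1
        funext ω
        refine propext ⟨fun h6 => ⟨⟨h6.1.1, h6.1.2.1⟩, h6.2⟩, fun h6 => ⟨⟨h6.1.1, h6.1.2, ?_⟩,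
          h6.2⟩⟩
        have h7 : 0 < G.p ω := lt_of_le_of_ne (hp.nonneg ω) (Ne.symm h6.2)
        exact ((cond_pos_iff hp.nonneg E True ω).2 ⟨h7, eq_true h6.1.1⟩).ne'
      rw [e1]
      have h4 : Real.exp (-(2 * ψ i * J)) ≤
          δ * Real.exp (ψ i * J) * Pe (G.res E True hElaw).p B' :=
        hPB.trans (hP.trans (mul_le_mul_of_nonneg_right h3 (Pe_nonneg hElaw B')))
      have h5 : Real.exp (-(3 * ψ i * J)) =
          Real.exp (-(ψ i * J)) * Real.exp (-(2 * ψ i * J)) := by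
        rw [← Real.exp_add]
        congr 1
        ring
      have h6 : Real.exp (-(3 * ψ i * J)) ≤ δ * Pe (G.res E True hElaw).p B' := by
        rw [h5]
        calc _ ≤ Real.exp (-(ψ i * J)) *
              (δ * Real.exp (ψ i * J) * Pe (G.res E True hElaw).p B') :=
              mul_le_mul_of_nonneg_left h4 (Real.exp_pos _).le
          _ = δ * Pe (G.res E True hElaw).p B' := by
              have h7 : Real.exp (-(ψ i * J)) * Real.exp (ψ i * J) = 1 := by
                rw [← Real.exp_add]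
                have : -(ψ i * (J : ℝ)) + ψ i * J = 0 := by ring
                rw [this, Real.exp_zero]
              calc _ = (Real.exp (-(ψ i * J)) * Real.exp (ψ i * J)) *
                    (δ * Pe (G.res E True hElaw).p B') := by ring
                _ = _ := by rw [h7, one_mul]
      refine h6.trans ?_
      rw [mul_comm]
      exact mul_le_mul_of_nonneg_left hE hB0'.le)
    have hB0 : 0 < Pe (G.res E True hElaw).p B := lt_of_lt_of_le (Real.exp_pos _) hPB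
    have h1 : b * J ≤ CH (cond (G.res E True hElaw).p B True)
        (fun ω => G.X J ω kk) (fun ω => (G.X (Q J) ω kk, (ub I (G.X J ω), ((), G.W ω)))) := by
      refine ch_glue_ge hElaw _ _ k B hB0 ?_ fun ω hω hBω =>
        hsec ω hω hBω (isLaw_sec hElaw k hω)
      intro ω ω' _ _ h5 h6 h7
      exact hSel.2 ω ω' h5 h6
        (Prod.ext_iff.1 (Prod.ext_iff.1 (Prod.ext_iff.1 (Prod.ext_iff.1 h7).2).2).2).2
    have h5 : Pe (G.res E True hElaw).p B = Pe G.p (fun ω => E ω ∧ B ω) / Pe G.p E :=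
      Pe_cond (p := G.p) (A := E) B
    have h6 : 0 < Pe G.p (fun ω => E ω ∧ B ω) := by
      rw [h5] at hB0
      by_contra hc
      push Not at hc
      have : Pe G.p (fun ω => E ω ∧ B ω) / Pe G.p E ≤ 0 :=
        div_nonpos_of_nonpos_of_nonneg hc hE0.le
      linarith
    refine ⟨fun ω => E ω ∧ B ω, fun ω h => h.1, h6, ?_⟩
    rw [← cond_part_eq hElaw B]
    exact h1)
  show (b - ε) * J ≤ CH (cond G.p (fun _ => True) True) (fun ω => G.X J ω kk)
    (fun ω => (G.X (Q J) ω kk, (ub I (G.X J ω), ((), G.W ω))))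
  refine le_trans ?_ hex
  have h1 : (1 - δ) * (b * J) = b * J - δ * b * J := by ring
  have h2 : δ * b * J ≤ ε * J := mul_le_mul_of_nonneg_right hδb hJr
  rw [h1]
  linarith

/-! ### Stable labels -/

/-- The polynomial of a stable label fits the line and the time. -/
def rΨ (n J : ℕ) (R : ℝ) (P : ℕ) (k : Fin n) (u d : Fin n → ℝ) (T : ℕ)
    (g : MvPolynomial (Option (Fin n)) ℝ) : Prop :=
  ∀ b : Option (Fin n) → ℝ, (∀ o, |b o - btv J u d T o| ≤ R / 2 ^ J) →
    |u k + (T : ℝ) / 2 ^ J * d k - eval b g| ≤ 1 / 2 ^ P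

theorem lbR_iff {R : ℝ} {F : Fam n J} {I : Finset (Fin n)} {k : Fin n} {K w P : ℕ}
    {A : F.Ω → Prop} : LbR R F I k K w P A ↔ PLab F J w (lC n K I) (rΨ n J R P k) A := by
  constructor
  · rintro ⟨V, z, z', G, h⟩
    refine ⟨V, z, z', G, fun v => ⟨h.deg v, h.dep v⟩, fun ω hω => ⟨h.cls ω hω, ?_⟩⟩
    unfold rΨ
    rw [btv_eq]
    exact h.pos ω hω
  · rintro ⟨V, z, z', G, h1, h2⟩
    unfold rΨ at h2
    refine ⟨V, z, z', G, fun v => (h1 v).1, fun v => (h1 v).2, fun ω hω => (h2 ω hω).1,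
      fun ω hω => ?_⟩
    have h3 := (h2 ω hω).2
    rw [btv_eq] at h3
    exact h3

/-- Stable labels can be glued. -/
theorem LbR.glu (R : ℝ) (I : Finset (Fin n)) (k : Fin n) (K w P : ℕ) :
    Glu (fun F : Fam n J => LbR R F I k K w P) := by
  intro G κ c B hS h
  refine lbR_iff.2 (PLab.glu J w (C := lC n K I) (rΨ n J R P k) (γ := 0) ?_ G κ c B hS
    fun ω hω hB hl => lbR_iff.1 (h ω hω hB hl))
  refine ⟨?_, fun b b' _ _ => ?_⟩
  · rw [totalDegree_zero]
    exact Nat.zero_le _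
  · rw [map_zero, map_zero]

theorem LbR.hered (R : ℝ) (F : Fam n J) (I : Finset (Fin n)) (k : Fin n) (K w P : ℕ) :
    Hered (LbR R F I k K w P) := by
  rintro A B hB ⟨V, z, z', G, h⟩
  exact ⟨V, z, z', G, h.deg, h.dep, fun ω hω => h.cls ω (hB ω hω), fun ω hω => h.pos ω (hB ω hω)⟩

theorem LbR.mono_deg {R : ℝ} {F : Fam n J} {I : Finset (Fin n)} {k : Fin n} {K K' w P : ℕ}
    {A : F.Ω → Prop} (hK : K ≤ K') (h : LbR R F I k K w P A) : LbR R F I k K' w P A := by
  obtain ⟨V, z, z', G, h⟩ := h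
  exact ⟨V, z, z', G, fun v => (h.deg v).trans hK, h.dep, h.cls, h.pos⟩

/-! ### The list -/

/-- The list of the bad properties. -/
def rzL (n : ℕ) (N : ℚ → ℚ → ℝ) (R Q d : ℝ) (I : Finset (Fin n)) (k : Fin n) (i J : ℕ) :
    Unit ⊕ (Fin (i + 1) × Fin n) → ∀ F : Fam n J, (F.Ω → Prop) → Prop
  | Sum.inl _ => fun F A => LbR R F I k i ⌊d * J⌋₊ ⌊Q * J⌋₊ A
  | Sum.inr (c, k') => fun F A => ActC N (1 / ((i : ℝ) + 1)) c k' J F A

theorem rzL_inv (N : ℚ → ℚ → ℝ) (R Q d : ℝ) (I : Finset (Fin n)) (k : Fin n) (i J : ℕ)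
    (a : Unit ⊕ (Fin (i + 1) × Fin n)) : Inv0 (rzL n N R Q d I k i J a) := by
  rcases a with _ | ⟨c, k'⟩
  · exact inv0_of_hered fun F => LbR.hered R F _ _ _ _ _
  · exact inv0_const (inv0_actF N _ _ _ k')

theorem rzL_glu (N : ℚ → ℚ → ℝ) (R Q d : ℝ) (I : Finset (Fin n)) (k : Fin n) (i J : ℕ)
    (a : Unit ⊕ (Fin (i + 1) × Fin n)) : GluP (rzL n N R Q d I k i J a) := by
  rcases a with _ | ⟨c, k'⟩
  · exact (LbR.glu R _ _ _ _ _).pos
  · exact glu_const (glu_actF N _ _ _ k')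

/-- The bad properties in a part of the sample space. -/
theorem rzL_part (N : ℚ → ℚ → ℝ) (R Q d : ℝ) (I : Finset (Fin n)) (k : Fin n) (i J : ℕ)
    (a : Unit ⊕ (Fin (i + 1) × Fin n)) (G : Fam n J) (E : G.Ω → Prop)
    (h : IsLaw (cond G.p E True)) (B : G.Ω → Prop)
    (hR : rzL n N R Q d I k i J a (G.res E True h) B) :
    rzL n N R Q d I k i J a G (fun ω => E ω ∧ B ω) := by
  rcases a with _ | ⟨c, k'⟩
  · obtain ⟨V, z, z', g, hg⟩ := hR
    exact ⟨V, z, z', g, hg.deg, hg.dep, fun ω hω => hg.cls ω hω.2, fun ω hω => hg.pos ω hω.2⟩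
  · change ActC N (1 / ((i : ℝ) + 1)) c k' J G (fun ω => E ω ∧ B ω)
    change ActC N (1 / ((i : ℝ) + 1)) c k' J (G.res E True h) B at hR
    refine ⟨hR.1, ?_⟩
    have h2 := hR.2
    unfold ActF at h2 ⊢
    have h3 := cond_part_eq h B
    rw [← h3]
    exact h2

theorem rBad_of_rzL {hn : 2 ≤ n} {N : ℚ → ℚ → ℝ} {R Q d : ℝ} {i : ℕ}
    {a : Unit ⊕ (Fin (i + 1) × Fin n)} {F : Fam n J} {B : F.Ω → Prop}
    (h : rzL n N R Q d (univ.erase (lst hn)) (lst hn) i J a F B) :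
    RBad hn N R Q d i J F B := by
  rcases a with _ | ⟨c, k'⟩
  · exact Or.inr h
  · obtain ⟨⟨h1, h2, h3⟩, h4⟩ := h
    refine Or.inl ⟨(dqc c).1, (dqc c).2, k', h1, ?_, h3.1, h3.2.1, h3.2.2, h4⟩
    have h5 := c.2
    change Encodable.encode (dqc c) ≤ i
    omega

theorem rzL_of_act {N : ℚ → ℚ → ℝ} {R Q d h : ℝ} {I : Finset (Fin n)} {k₀ : Fin n} {i : ℕ}
    {q q' : ℚ} (hi : 1 / ((i : ℝ) + 1) ≤ h) (hq : Encodable.encode (q, q') ≤ i) {k : Fin n}
    (hk : (k : ℕ) = 0) (h0 : 0 ≤ q) (h1 : q ≤ q') (h2 : q' ≤ 1) {F : Fam n J} {B : F.Ω → Prop}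
    (hb : ActF N q q' h k J F B) : ∃ a, rzL n N R Q d I k₀ i J a F B := by
  refine ⟨Sum.inr (⟨Encodable.encode (q, q'), by omega⟩, k), ?_⟩
  change ActC N (1 / ((i : ℝ) + 1)) (Encodable.encode (q, q')) k J F B
  unfold ActC
  rw [dqc_encode]
  refine ⟨⟨hk, rfl, h0, h1, h2⟩, ?_⟩
  unfold ActF at hb ⊢
  refine lt_of_lt_of_le hb ?_
  have hl2 : 0 ≤ Real.log 2 := (Real.log_pos one_lt_two).le
  exact mul_le_mul_of_nonneg_right (mul_le_mul_of_nonneg_right (by linarith) hl2)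
    (Nat.cast_nonneg J)

/-- The class of the large events with few values of the row. -/
noncomputable def rowCl (S : FCl n) (k : Fin n) (I : Finset (Fin n)) (Q : ℝ) (b' : ℝ) :
    PCl n where
  St := fun τ J F A => S.St τ F A ∧ CntC F.p (fun ω => F.X J ω k)
    (fun ω => (F.X ⌊Q * J⌋₊ ω k, (ub I (F.X J ω), ((), F.W ω)))) (Real.exp (b' * J)) A
  mono := fun h hA => ⟨hA.1.mono h, hA.2⟩
  res := fun hτ hA hB hP => ⟨S.toP.res hτ hA.1 hB hP, hA.2.sub hB⟩

/-- **The rows of a family with side information.** -/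
theorem rz_of {n : ℕ} (hR : RT n) : RZ n := by
  intro hn al g₀ hal hg₀ N hN R Q d ρ hR0 hQ0 hQ1 hd hρ ψ hψ
  have hl2 : 0 < Real.log 2 := Real.log_pos one_lt_two
  obtain ⟨I, hI⟩ : ∃ I : Finset (Fin n), I = univ.erase (lst hn) := ⟨_, rfl⟩
  obtain ⟨b', hb'⟩ : ∃ b', b' = (1 - Q - ρ / 2) * Real.log 2 := ⟨_, rfl⟩
  obtain ⟨b, hb⟩ : ∃ b, b = b' - ρ / 4 * Real.log 2 := ⟨_, rfl⟩
  have hρl : 0 < ρ / 4 * Real.log 2 := by positivity
  by_cases hb0 : 0 ≤ b
  swap
  · push Not at hb0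
    refine ⟨1, one_pos, 0, 0, fun J _ G _ _ => Or.inr ?_⟩
    have h1 : (1 - Q - ρ) * Real.log 2 ≤ 0 := by
      have e1 : (1 - Q - ρ) * Real.log 2 = b - ρ / 4 * Real.log 2 := by
        rw [hb, hb']
        ring
      rw [e1]
      linarith
    exact (mul_nonpos_of_nonpos_of_nonneg h1 (Nat.cast_nonneg J)).trans
      (CH_nonneg (cond_nonneg G.isLaw.nonneg _ _) _ _)
  have hb1 : 0 < b' := by linarith
  have hcard : ∀ (i : ℕ) (e : ℝ), 0 < e → ∃ J₀ : ℕ, ∀ J ≥ J₀,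
      (Fintype.card (Unit ⊕ (Fin (i + 1) × Fin n)) : ℝ) ≤ Real.exp (e * J) := by
    intro i e he
    obtain ⟨J₀, hJ₀⟩ := exists_nat_ge
      ((Fintype.card (Unit ⊕ (Fin (i + 1) × Fin n)) : ℝ) / e)
    refine ⟨J₀, fun J hJ => ?_⟩
    have h1 : (Fintype.card (Unit ⊕ (Fin (i + 1) × Fin n)) : ℝ) / e ≤ J :=
      hJ₀.trans (by exact_mod_cast hJ)
    rw [div_le_iff₀ he] at h1
    have h2 := Real.add_one_le_exp (e * J)
    linarith
  obtain ⟨η, hη, N₀, J₁, hmain⟩ := zcl_row (n := n)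
    (ι := fun i _ => Unit ⊕ (Fin (i + 1) × Fin n))
    (R := rzL n N R Q d I (lst hn)) (fun J F => Gd F) hcard
    (rzL_inv N R Q d I (lst hn)) (rzL_glu N R Q d I (lst hn)) (rzL_part N R Q d I (lst hn))
    (fun J G hG => hG) (fun J G hG κ k v hl => hG)
    (lst hn) I (fun J => ⌊Q * J⌋₊) hb0 (by
      intro S hS hbad
      have hne : ∀ i : ℕ, Bas S.toP (fun J F A => ¬ ∃ a, rzL n N R Q d I (lst hn) i J a F A) := by
        intro i
        obtain ⟨κ, hκ, hc⟩ := hbad i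
        refine Bas.mono 0 hc fun J _ F A h1 => h1 A ?_
        have h2 : Real.exp (-(κ * J)) ≤ 1 := by
          rw [Real.exp_le_one_iff]
          have : 0 ≤ κ * (J : ℝ) := by positivity
          linarith
        calc _ ≤ 1 * Pe F.p A := mul_le_mul_of_nonneg_right h2 (Pe_nonneg F.isLaw A)
          _ = Pe F.p A := one_mul _
      -- the class of the events with few values
      obtain ⟨S', hS'⟩ : ∃ S' : PCl n, S' = rowCl S (lst hn) I Q b' := ⟨_, rfl⟩
      have hsub : ∀ (τ : ℝ) (J : ℕ) (F : Fam n J) (A : F.Ω → Prop),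
          S'.St τ J F A → S.toP.St τ J F A := by
        intro τ J F A hA
        rw [hS'] at hA
        exact hA.1
      have hno : ¬ S'.Ne := by
        intro hNe
        refine hR hn al g₀ hal hg₀ N hN R Q d (ρ / 2) hR0 hQ0 hQ1 hd (half_pos hρ) S'
          ⟨hNe, ?_, ?_⟩ ?_ ?_
        · intro τ J F A hA
          have h1 : S.St τ F A := hsub τ J F A hA
          exact ⟨S.tr h1.1, S.tm h1.1, S.rb h1.1, h1.2, (hS τ J F h1.1).1, (hS τ J F h1.1).2⟩
        · intro k hk q q' h0 h1 h2 h hh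
          obtain ⟨i, hi⟩ := exists_inv hh
          obtain ⟨c, hc⟩ : ∃ c, c = Encodable.encode (q, q') := ⟨_, rfl⟩
          have hii : 1 / (((max i c : ℕ) : ℝ) + 1) ≤ h := by
            refine le_trans ?_ hi
            refine one_div_le_one_div_of_le (by positivity) ?_
            have : (i : ℝ) ≤ ((max i c : ℕ) : ℝ) := by exact_mod_cast le_max_left _ _
            linarith
          refine Bas.sub hsub (Bas.mono 0 (hne (max i c)) fun J _ F A h3 => ?_)
          by_contra hcon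
          push Not at hcon
          exact h3 (rzL_of_act hii (by rw [← hc]; exact le_max_right _ _) hk h0 h1 h2 hcon)
        · intro K
          refine Bas.sub hsub (Bas.mono 0 (hne K) fun J _ F A h1 h2 => h1 ⟨Sum.inl (), ?_⟩)
          rw [hI]
          exact h2
        · refine ⟨1, one_pos, 0, fun J _ F A hA => ?_⟩
          rw [hS'] at hA
          have hA0 : 0 < Pe F.p A := lt_of_lt_of_le (Real.exp_pos _) hA.1.2
          have h1 := ch_le_cntC F.isLaw _ _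
            (Real.one_le_exp (mul_nonneg hb1.le (Nat.cast_nonneg J))) hA0 hA.2
          rw [Real.log_exp, hb', hI] at h1
          exact h1
      have hno' : Bas S.toP (fun J F A => ¬ CntC F.p (fun ω => F.X J ω (lst hn))
          (fun ω => (F.X ⌊Q * J⌋₊ ω (lst hn), (ub I (F.X J ω), ((), F.W ω))))
          (Real.exp (b' * J)) A) := by
        unfold PCl.Ne at hno
        push Not at hno
        obtain ⟨τ, hτ, J₂, h1⟩ := hno
        refine ⟨τ, hτ, J₂, fun J hJ F A hA hc => h1 J hJ F A ?_⟩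
        rw [hS']
        exact ⟨hA, hc⟩
      have h5 := ch_ge_of (S := S.toP) (fun τ J F A hA => lt_of_lt_of_le (Real.exp_pos _) hA.2)
        (b := b) (b' := b') (by linarith) hb1 (fun J F ω => F.X J ω (lst hn))
        (fun J F ω => (F.X ⌊Q * J⌋₊ ω (lst hn), (ub I (F.X J ω), ((), F.W ω)))) hno'
      exact clg_of_clp h5.clp)
    ψ hψ (ρ / 4 * Real.log 2) hρl
  refine ⟨η, hη, N₀, J₁, fun J hJ G hTm hGd => ?_⟩
  rcases hmain J hJ G hTm hGd with ⟨i, hi, B, hP, a, ha⟩ | h1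
  · rw [hI] at ha
    exact Or.inl ⟨i, hi, B, hP, rBad_of_rzL ha⟩
  · right
    rw [hI] at h1
    refine le_trans (le_of_eq ?_) h1
    rw [hb, hb']
    ring

end Pool.TOP
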